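import Mathlib
import Pool.Agent.Lib_helper61.Hex
import Pool.Agent.Lib_helper61.Band6

/-!
# The first player cannot win `n × n` Hex with fewer than `n + ⌊n/6⌋ + ⌊(n+2)/6⌋` stones
-/

namespace Pool.Agent.Results.MP_779ef9_co.SpeedLowerBound

open Pool.Agent.Lib_helper61

theorem safe_small (a : ℤ) (ρ : ℕ) (h1 : 1 ≤ ρ) (h6 : ρ < 6) :
    Safe (ρ + (ρ + 2) / 6 - 1) (Cross a ρ) := by
  have s1 : ∀ a, Safe 0 (Cross a 1) := safe_cross_one
  have s2 : ∀ a, Safe 1 (Cross a 2) := fun a =>
    safe_cross_add (n := 1) (n' := 1) le_rfl le_rfl (s1 a) (s1 _)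
  have s3 : ∀ a, Safe 2 (Cross a 3) := fun a =>
    safe_cross_add (n := 2) (n' := 1) (by omega) le_rfl (s2 a) (s1 _)
  have s5 : ∀ a, Safe 5 (Cross a 5) := fun a =>
    safe_cross_add (n := 4) (n' := 1) (by omega) le_rfl (safe_cross_four a) (s1 _)
  interval_cases ρ
  · exact s1 a
  · exact s2 a
  · exact s3 a
  · exact safe_cross_four a
  · exact s5 a

theorem safe_all (q ρ : ℕ) (h6 : ρ < 6) (h : 1 ≤ 6 * q + ρ) (a : ℤ) :
    Safe (8 * q + (ρ + (ρ + 2) / 6) - 1) (Cross a (6 * q + ρ)) := by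
  induction q generalizing a with
  | zero =>
    rw [mul_zero, zero_add] at h
    have := safe_small a ρ h h6
    simpa using this
  | succ q ih =>
    by_cases h0 : 6 * q + ρ = 0
    · obtain rfl : q = 0 := by omega
      obtain rfl : ρ = 0 := by omega
      exact safe_cross_six a
    · have := safe_cross_add (by omega) (by omega) (ih (by omega) a)
        (safe_cross_six (a + (6 * q + ρ : ℕ)))
      rw [show 6 * (q + 1) + ρ = 6 * q + ρ + 6 by ring]
      rwa [show 8 * (q + 1) + (ρ + (ρ + 2) / 6) - 1 =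
        8 * q + (ρ + (ρ + 2) / 6) - 1 + 7 + 1 by omega]

/-- If the first player, moving first on the empty `n × n` Hex board, can force a win with at most
`k` stones of her own, then `k ≥ n + ⌊n/6⌋ + ⌊(n+2)/6⌋`. -/
theorem result (n k : ℕ) (h : FirstWins n k ∅ ∅) : n + n / 6 + (n + 2) / 6 ≤ k := by
  rcases Nat.eq_zero_or_pos n with rfl | hn
  · simp
  · have hS := safe_all (n / 6) (n % 6) (Nat.mod_lt _ (by omega)) (by omega) 0
    rw [show 6 * (n / 6) + n % 6 = n by omega] at hS
    have := le_of_firstWins hn hS h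
    omega

end Pool.Agent.Results.MP_779ef9_co.SpeedLowerBound
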