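import Mathlib
import Pool.Agent.Lib_helper61.Hex
import Pool.Agent.HexUp.Main

/-!
# The first player wins `n × n` Hex, `n ≥ 3`, with at most `⌈n^2/2⌉ - 1` stones
-/

namespace Pool.Agent.Results.MP_779ef9_co.SpeedUpperBound

open Pool.Agent.Lib_helper61

/-- For `n ≥ 3` the first player, moving first on the empty `n × n` Hex board, can force a win with
at most `⌊(n^2 + 1)/2⌋ - 1 = ⌈n^2/2⌉ - 1` stones of her own. -/
theorem result (n : ℕ) (hn : 3 ≤ n) : FirstWins n ((n ^ 2 + 1) / 2 - 1) ∅ ∅ :=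
  Pool.Agent.HexUp.main hn

end Pool.Agent.Results.MP_779ef9_co.SpeedUpperBound
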